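import Pool.Agent.H58.HN.TargetsG

/-! Row `GG` of the board hnet_modules: the system of the vectors of classes. -/

set_option autoImplicit false

namespace Pool.Agent.H68.HN

open Pool.Agent.H58.HN

private theorem map_erase {I A : Type} [Fintype I] [DecidableEq I] (cl : I → A) (i : I) :
    (Finset.univ : Finset I).val.map cl =
      cl i ::ₘ (Finset.univ : Finset {i' : I // i' ≠ i}).val.map (fun i' => cl i'.1) := by
  have h1 : (Finset.univ : Finset {i' : I // i' ≠ i}).val.map (fun i' => (i'.1 : I)) =
      ((Finset.univ : Finset I).erase i).val := by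
    have h2 : (Finset.univ : Finset {i' : I // i' ≠ i}).map (Function.Embedding.subtype _) =
        (Finset.univ : Finset I).erase i := by
      ext x
      simp
    rw [← h2, Finset.map_val]
    rfl
  have h3 : (Finset.univ : Finset I).val = i ::ₘ ((Finset.univ : Finset I).erase i).val := by
    rw [Finset.erase_val, Multiset.cons_erase (Finset.mem_univ i)]
  rw [h3, Multiset.map_cons, ← h1, Multiset.map_map]
  rfl

private theorem le_map {I A : Type} (cl : I → A) (u : Multiset I) :
    ∀ t : Multiset A, t ≤ u.map cl → ∃ v ≤ u, v.map cl = t := by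
  classical
  induction u using Multiset.induction_on with
  | empty =>
    intro t ht
    rw [Multiset.map_zero] at ht
    exact ⟨0, le_rfl, by rw [Multiset.map_zero]; exact (Multiset.le_zero.1 ht).symm⟩
  | cons a u ih =>
    intro t ht
    rw [Multiset.map_cons] at ht
    by_cases h : cl a ∈ t
    · obtain ⟨t', rfl⟩ := Multiset.exists_cons_of_mem h
      rw [Multiset.cons_le_cons_iff] at ht
      obtain ⟨v, hv, hv'⟩ := ih t' ht
      exact ⟨a ::ₘ v, (Multiset.cons_le_cons_iff a).2 hv, by rw [Multiset.map_cons, hv']⟩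
    · rw [Multiset.le_cons_of_notMem h] at ht
      obtain ⟨v, hv, hv'⟩ := ih t ht
      exact ⟨v, hv.trans (Multiset.le_cons_self u a), hv'⟩

private theorem unit_mem {T A : Type} (R : T → T → Prop) (act : (T → T) → (T → T) → A)
    (d : T → T) (hd : Arc R R d d) : {act d d} ∈ VV R act := by
  refine ⟨Unit, inferInstance, inferInstance, fun x => d (x ()), fun _ => act d d,
    ⟨fun x y h => hd _ _ (h ()), fun i s s' _ => ?_⟩, ?_⟩
  · have h1 : ∀ s : Unit → T, sl (fun x : Unit → T => d (x ())) i s = d := by
      intro s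
      funext z
      unfold sl
      cases i
      exact congrArg d (Function.update_self _ _ _)
    rw [h1, h1]
  · rfl

theorem pf_GG (hE : T_GE) (hF : T_GF) : T_GG := by
  intro T A R _ act hT hact
  have hfin := hT.fin
  obtain ⟨a, b, hab⟩ := hT.edge
  refine ⟨?_, ?_, ?_, ?_, ?_⟩
  · have h1 := unit_mem R act id fun x y h => h
    rw [hact.one] at h1
    exact h1
  · rintro c s t ⟨I, _, _, H, cl, hcl, hs⟩ ⟨J, _, _, H', cl', hcl', rfl⟩
    have hc : c ∈ (Finset.univ : Finset I).val.map cl := by
      rw [← hs]
      exact Multiset.mem_cons_self c s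
    obtain ⟨i, _, rfl⟩ := Multiset.mem_map.1 hc
    rw [map_erase cl i, Multiset.cons_inj_right] at hs
    refine ⟨{i' : I // i' ≠ i} ⊕ J, inferInstance, inferInstance, _, _,
      hE T A I J R act hT hact H H' cl cl' i hcl hcl', ?_⟩
    rw [hs, ← Finset.univ_disjSum_univ]
    change _ = Multiset.map _ ((Finset.univ : Finset {i' : I // i' ≠ i}).val.map Sum.inl +
      (Finset.univ : Finset J).val.map Sum.inr)
    rw [Multiset.map_add, Multiset.map_map, Multiset.map_map, Multiset.map_map]
    rfl
  · refine Set.Finite.subset (Set.finite_range fun p : (T → T) × (T → T) => act p.1 p.2) ?_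
    rintro x ⟨φ, φ', _, rfl⟩
    exact ⟨(φ, φ'), rfl⟩
  · rintro s ⟨I, _, _, H, cl, hcl, rfl⟩ t ht
    obtain ⟨v, hv, rfl⟩ := le_map cl _ t ht
    have hnd : v.Nodup := Multiset.nodup_of_le hv Finset.univ.nodup
    have h1 := hF T A I R act hT hact H cl hcl ⟨v, hnd⟩ (fun _ => a) (fun _ => b) fun _ => hab
    refine ⟨_, _, fun x y hxy => ?_, h1.symm.trans rfl⟩
    refine hcl.1 _ _ fun i => ?_
    split_ifs
    · exact hxy
    · exact hab
  · rintro s ⟨I, _, _, H, cl, hcl, rfl⟩
    have h1 := hF T A I R act hT hact H cl hcl Finset.univ (fun _ => a) (fun _ => b) fun _ => hab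
    set d : T → T := fun x => H fun _ => x with hd
    have h2 : ((Finset.univ : Finset I).val.map cl).sum = act d d := by
      change ∑ i, cl i = _
      rw [h1]
      simp only [Finset.mem_univ, if_true]
      rfl
    have hdA : Arc R R d d := fun x y hxy => hcl.1 _ _ fun _ => hxy
    have hbij := hT.endo d hdA
    have hit : ∀ m, Arc R R (d^[m]) (d^[m]) := by
      intro m
      induction m with
      | zero => exact fun x y h => h
      | succ m ih =>
        intro x y hxy
        rw [Function.iterate_succ_apply, Function.iterate_succ_apply]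
        exact ih _ _ (hdA x y hxy)
    obtain ⟨m, hm⟩ : ∃ m, d^[m + 1] = id := by
      obtain ⟨k, hk, hk'⟩ := (isOfFinOrder_of_finite (Equiv.ofBijective d hbij)).exists_pow_eq_one
      refine ⟨k - 1, ?_⟩
      rw [Nat.sub_add_cancel hk]
      funext x
      have h3 := congrArg (fun e : Equiv.Perm T => e x) hk'
      rw [← Equiv.Perm.iterate_eq_pow] at h3
      exact h3
    have hl : d^[m] ∘ d = id := by rw [← Function.iterate_succ, hm]
    have hr : d ∘ d^[m] = id := by rw [← Function.iterate_succ', hm]
    refine ⟨act (d^[m]) (d^[m]), ?_, ?_, unit_mem R act _ (hit m)⟩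
    · rw [h2, ← hact.mul _ _ _ _ (hit m) hdA, hl, hact.one]
    · rw [h2, ← hact.mul _ _ _ _ hdA (hit m), hr, hact.one]

end Pool.Agent.H68.HN
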