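import Pool.Agent.H58.HN.TargetsG

/-! Row `LC` of the board hnet_modules: the iterated limit, `n` coordinates. -/

set_option autoImplicit false

namespace Pool.Agent.H68.HN

open Pool.Agent.H58.HN
open Pool.Agent.H68.BP Pool.Agent.H58.SF Pool.Agent.H53.RG Pool.Agent.H53.FC

private theorem ev_map {V W : Type} (g : W → V) : ∀ {n : ℕ} (Q : Fin n → Ultrafilter W)
    (P : (Fin n → V) → Prop), Ev n (fun j => (Q j).map g) P →
      Ev n Q (fun v => P fun j => g (v j)) := by
  intro n
  induction n with
  | zero =>
    intro Q P h
    have h1 : (fun j : Fin 0 => g ((fun i : Fin 0 => (i.elim0 : W)) j)) =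
        fun i : Fin 0 => (i.elim0 : V) := by
      funext i
      exact i.elim0
    change P (fun j : Fin 0 => g ((fun i : Fin 0 => (i.elim0 : W)) j))
    rw [h1]
    exact h
  | succ n ih =>
    intro Q P h
    have h1 : ∀ᶠ x in ((Q 0 : Ultrafilter W) : Filter W),
        Ev n (fun i => (Q i.succ).map g) (fun v => P (Fin.cons (g x) v)) := h
    refine Filter.Eventually.mono h1 fun x hx => ?_
    refine (ih (fun i => Q i.succ) _ hx).mono fun v hv => ?_
    have h2 : (fun j => g ((Fin.cons x v : Fin (n + 1) → W) j)) =
        (Fin.cons (g x) fun j => g (v j) : Fin (n + 1) → V) := by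
      funext j
      refine Fin.cases ?_ (fun k => ?_) j
      · rw [Fin.cons_zero, Fin.cons_zero]
      · rw [Fin.cons_succ, Fin.cons_succ]
    change P (fun j => g ((Fin.cons x v : Fin (n + 1) → W) j))
    rw [h2]
    exact hv

/-- Slices with base ultrafilters which depend on the coordinate. -/
private theorem slice {W ι : Type} [Finite ι] (r : ι → Ultrafilter W) :
    ∀ (n : ℕ) (i : Fin n) (q : Fin n → Ultrafilter W) (P : ι → (Fin n → W) → Prop),
      (∀ s, Ev n (Function.update q i (r s)) (P s)) →
      ∃ A : ι → Set W, (∀ s, A s ∈ r s) ∧ ∀ F : Finset (ι × W), (∀ w ∈ F, w.2 ∈ A w.1) →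
        ∃ z : Fin n → W, ∀ w ∈ F, P w.1 (Function.update z i w.2) := by
  intro n
  induction n with
  | zero => exact fun i => i.elim0
  | succ n ih =>
    intro i
    refine Fin.cases ?_ (fun j => ?_) i
    · intro q P hP
      refine ⟨fun s => {x | Ev n (fun i => q i.succ) (fun v => P s (Fin.cons x v))},
        fun s => ?_, ?_⟩
      · have h1 := hP s
        have h2 : (fun i : Fin n => Function.update q (0 : Fin (n + 1)) (r s) i.succ) =
            fun i => q i.succ := by
          funext i
          rw [Function.update_of_ne (Fin.succ_ne_zero i)]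
        simp only [Ev, h2, Function.update_self] at h1
        exact h1
      · intro F hF
        have h1 : Ev n (fun i => q i.succ) (fun v => ∀ w : F, P w.1.1 (Fin.cons w.1.2 v)) :=
          Ev.all fun w => hF w.1 w.2
        obtain ⟨v, hv⟩ := h1.exists
        obtain ⟨x₀⟩ : Nonempty W := Filter.nonempty_of_neBot ((q 0 : Ultrafilter W) : Filter W)
        refine ⟨Fin.cons x₀ v, fun w hw => ?_⟩
        rw [Fin.update_cons_zero]
        exact hv ⟨w, hw⟩
    · intro q P hP
      have h1 : ∀ᶠ x in ((q 0 : Ultrafilter W) : Filter W), ∀ s,
          Ev n (Function.update (fun i => q i.succ) j (r s)) (fun v => P s (Fin.cons x v)) := by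
        rw [Filter.eventually_all]
        intro s
        have h2 := hP s
        have h3 : (fun i : Fin n => Function.update q j.succ (r s) i.succ) =
            Function.update (fun i => q i.succ) j (r s) := by
          funext i
          by_cases hij : i = j
          · subst hij
            rw [Function.update_self, Function.update_self]
          · rw [Function.update_of_ne hij,
              Function.update_of_ne (fun h => hij (Fin.succ_injective _ h))]
        simp only [Ev, h3, Function.update_of_ne (Fin.succ_ne_zero j).symm] at h2
        exact h2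
      obtain ⟨x, hx⟩ := h1.exists
      obtain ⟨A, hA, h4⟩ := ih j (fun i => q i.succ) (fun s v => P s (Fin.cons x v)) hx
      refine ⟨A, hA, fun F hF => ?_⟩
      obtain ⟨z, hz⟩ := h4 F hF
      refine ⟨Fin.cons x z, fun w hw => ?_⟩
      rw [← Fin.cons_update]
      exact hz w hw

/-- the pairs of adjacent vertices -/
private theorem pair {V : Type} (E : V → V → Prop) (p p' : Ultrafilter V)
    (h : ∀ A ∈ p, ∀ B ∈ p', ∃ a ∈ A, ∃ b ∈ B, E a b) :
    ∃ q : Ultrafilter (V × V), (∀ᶠ v in (q : Filter (V × V)), E v.1 v.2) ∧
      q.map Prod.fst = p ∧ q.map Prod.snd = p' := by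
  have hne : (((p : Filter V) ×ˢ (p' : Filter V)) ⊓ Filter.principal {v : V × V | E v.1 v.2}).NeBot
      := by
    rw [Filter.inf_principal_neBot_iff]
    intro U hU
    obtain ⟨A, hA, B, hB, hAB⟩ := Filter.mem_prod_iff.1 hU
    obtain ⟨a, ha, b, hb, hab⟩ := h A hA B hB
    exact ⟨(a, b), hAB ⟨ha, hb⟩, hab⟩
  have hle := Ultrafilter.of_le
    (((p : Filter V) ×ˢ (p' : Filter V)) ⊓ Filter.principal {v : V × V | E v.1 v.2})
  refine ⟨Ultrafilter.of (((p : Filter V) ×ˢ (p' : Filter V)) ⊓
    Filter.principal {v : V × V | E v.1 v.2}), ?_, ?_, ?_⟩
  · exact (hle.trans inf_le_right) (Filter.mem_principal_self _)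
  · refine Ultrafilter.coe_le_coe.1 ?_
    rw [Ultrafilter.coe_map]
    exact (Filter.map_mono (hle.trans inf_le_left)).trans Filter.tendsto_fst
  · refine Ultrafilter.coe_le_coe.1 ?_
    rw [Ultrafilter.coe_map]
    exact (Filter.map_mono (hle.trans inf_le_left)).trans Filter.tendsto_snd

private theorem ev_coord {W : Type} : ∀ {n : ℕ} (Q : Fin n → Ultrafilter W) (j : Fin n)
    (C : W → Prop), (∀ᶠ x in ((Q j : Ultrafilter W) : Filter W), C x) →
      Ev n Q (fun v => C (v j)) := by
  intro n
  induction n with
  | zero => exact fun _ j => j.elim0
  | succ n ih =>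
    intro Q j
    refine Fin.cases ?_ (fun k => ?_) j
    · intro C h
      refine Filter.Eventually.mono h fun x hx => ?_
      have h1 : ∀ m (Q : Fin m → Ultrafilter W), Ev m Q fun _ => C x := by
        intro m
        induction m with
        | zero => exact fun _ => hx
        | succ m ih' => exact fun Q => Filter.Eventually.of_forall fun _ => ih' _
      refine (h1 n fun i => Q i.succ).mono fun v _ => ?_
      change C ((Fin.cons x v : Fin (n + 1) → W) 0)
      rw [Fin.cons_zero]
      exact hx
    · intro C h
      refine Filter.Eventually.of_forall fun x => ?_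
      refine (ih (fun i => Q i.succ) k C h).mono fun v hv => ?_
      change C ((Fin.cons x v : Fin (n + 1) → W) k.succ)
      rw [Fin.cons_succ]
      exact hv

theorem pf_LC : Pool.Agent.H58.HN.T_LC := by
  classical
  intro V T n E R p hT hE hp f hf
  obtain ⟨a, b, hab⟩ := hE
  choose H hH using fun s : Fin n → T => Ev.value (fun j => p (s j)) f
  refine ⟨H, ?_, ?_⟩
  · intro s s' hs
    obtain ⟨x, hx, h1⟩ := Ev.rel (m := 2) (R := fun c : Fin 2 → V => E (c 0) (c 1)) (n := n)
      (p := fun j i => p ((![s, s'] : Fin 2 → Fin n → T) j i)) (fun i A hA => by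
        obtain ⟨c, hc, d, hd, hcd⟩ := hp _ _ (hs i) (A 0) (hA 0) (A 1) (hA 1)
        refine ⟨![c, d], hcd, fun j => ?_⟩
        fin_cases j
        · exact hc
        · exact hd) (P := fun j v => f v = H ((![s, s'] : Fin 2 → Fin n → T) j))
      (fun j => hH _)
    have e0 : f (x 0) = H s := h1 0
    have e1 : f (x 1) = H s' := h1 1
    rw [← e0, ← e1]
    exact hf _ _ hx
  · intro i s s' hs
    choose q hq1 hq2 hq3 using fun j => pair E (p (s j)) (p (s' j)) (hp _ _ (hs j))
    obtain ⟨A, hA, hsl⟩ := slice (fun t => (p t).map fun x => (x, x)) n i q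
      (fun t v => (f (fun j => (v j).1) = H (Function.update s i t) ∧
        f (fun j => (v j).2) = H (Function.update s' i t)) ∧ ∀ j, j ≠ i → E (v j).1 (v j).2) (by
        intro t
        refine Ev.and (Ev.and ?_ ?_) (Ev.all fun j => ?_)
        · refine ev_map Prod.fst _ (fun v => f v = H (Function.update s i t)) ?_
          have h1 : (fun j => (Function.update q i ((p t).map fun x => (x, x)) j).map Prod.fst) =
              fun j => p (Function.update s i t j) := by
            funext j
            by_cases hj : j = i
            · subst hj
              rw [Function.update_self, Function.update_self, Ultrafilter.map_map]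
              exact Ultrafilter.map_id' _
            · rw [Function.update_of_ne hj, Function.update_of_ne hj]
              exact hq2 j
          rw [h1]
          exact hH _
        · refine ev_map Prod.snd _ (fun v => f v = H (Function.update s' i t)) ?_
          have h1 : (fun j => (Function.update q i ((p t).map fun x => (x, x)) j).map Prod.snd) =
              fun j => p (Function.update s' i t j) := by
            funext j
            by_cases hj : j = i
            · subst hj
              rw [Function.update_self, Function.update_self, Ultrafilter.map_map]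
              exact Ultrafilter.map_id' _
            · rw [Function.update_of_ne hj, Function.update_of_ne hj]
              exact hq3 j
          rw [h1]
          exact hH _
        · refine ev_coord _ j (fun w : V × V => j ≠ i → E w.1 w.2) ?_
          by_cases hj : j = i
          · exact Filter.Eventually.of_forall fun _ h => absurd hj h
          · rw [Function.update_of_ne hj]
            exact (hq1 j).mono fun _ h _ => h)
    have hT0 : Nonempty T := ⟨f fun _ => a⟩
    obtain ⟨t0⟩ := hT0
    have hA' : ∀ t, {w | (w, w) ∈ A t} ∈ p t := fun t => hA t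
    obtain ⟨w0, hw0⟩ := Ultrafilter.nonempty_of_mem (hA' t0)
    have key : ∀ F : Finset V, ∃ u u' : Fin n → V, Pw (Fin n) E u u' ∧ ∀ t, ∀ w ∈ F, (w, w) ∈ A t →
        sl f i u w = H (Function.update s i t) ∧ sl f i u' w = H (Function.update s' i t) := by
      intro F
      have := Fintype.ofFinite T
      obtain ⟨z, hz⟩ := hsl (insert (t0, (w0, w0)) (((Finset.univ ×ˢ F).image fun c : T × V =>
        (c.1, (c.2, c.2))).filter fun c => c.2 ∈ A c.1)) (by
          intro w hw
          rcases Finset.mem_insert.1 hw with rfl | hw
          · exact hw0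
          · exact (Finset.mem_filter.1 hw).2)
      refine ⟨Function.update (fun j => (z j).1) i a, Function.update (fun j => (z j).2) i b,
        ?_, ?_⟩
      · intro j
        by_cases hj : j = i
        · subst hj
          rw [Function.update_self, Function.update_self]
          exact hab
        · rw [Function.update_of_ne hj, Function.update_of_ne hj]
          have h1 := (hz (t0, (w0, w0)) (Finset.mem_insert_self _ _)).2 j hj
          rw [Function.update_of_ne hj] at h1
          exact h1
      · intro t w hw hwA
        have h1 := (hz (t, (w, w)) (Finset.mem_insert_of_mem (Finset.mem_filter.2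
          ⟨Finset.mem_image.2 ⟨(t, w), Finset.mem_product.2 ⟨Finset.mem_univ _, hw⟩, rfl⟩,
            hwA⟩))).1
        unfold sl
        rw [Function.update_idem, Function.update_idem]
        have e1 : (fun j => (Function.update z i (w, w) j).1) =
            Function.update (fun j => (z j).1) i w := by
          funext j
          by_cases hj : j = i
          · subst hj
            rw [Function.update_self, Function.update_self]
          · rw [Function.update_of_ne hj, Function.update_of_ne hj]
        have e2 : (fun j => (Function.update z i (w, w) j).2) =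
            Function.update (fun j => (z j).2) i w := by
          funext j
          by_cases hj : j = i
          · subst hj
            rw [Function.update_self, Function.update_self]
          · rw [Function.update_of_ne hj, Function.update_of_ne hj]
        rw [← e1, ← e2]
        exact h1
    choose u u' hu hu' using key
    choose Φ hΦ using fun w : V => exists_lim (cone V) fun F => sl f i (u F) w
    choose Φ' hΦ' using fun w : V => exists_lim (cone V) fun F => sl f i (u' F) w
    refine ⟨Φ, Φ', ?_, ?_, ?_⟩
    · intro F
      have h1 : ∀ᶠ G in ((cone V : Ultrafilter (Finset V)) : Filter (Finset V)),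
          ∀ w : F, sl f i (u G) w.1 = Φ w.1 := by
        rw [Filter.eventually_all]
        exact fun w => hΦ w.1
      have h2 : ∀ᶠ G in ((cone V : Ultrafilter (Finset V)) : Filter (Finset V)),
          ∀ w : F, sl f i (u' G) w.1 = Φ' w.1 := by
        rw [Filter.eventually_all]
        exact fun w => hΦ' w.1
      obtain ⟨G, h1, h2⟩ := (h1.and h2).exists
      exact ⟨u G, u' G, hu G, fun x hx => h1 ⟨x, hx⟩, fun x hx => h2 ⟨x, hx⟩⟩
    · intro t
      refine Filter.mem_of_superset (hA' t) fun w hw => ?_
      obtain ⟨G, h1, h2⟩ := ((hΦ w).and (cone_mem {w})).exists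
      have h3 := (hu' G t w (h2 (Finset.mem_singleton_self w)) hw).1
      exact h1.symm.trans h3
    · intro t
      refine Filter.mem_of_superset (hA' t) fun w hw => ?_
      obtain ⟨G, h1, h2⟩ := ((hΦ' w).and (cone_mem {w})).exists
      have h3 := (hu' G t w (h2 (Finset.mem_singleton_self w)) hw).2
      exact h1.symm.trans h3

end Pool.Agent.H68.HN
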