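import Pool.Agent.H58.HN.TargetsT

/-! Row `TF` of the board hnet_modules: identity, composition, comparison, cycles. -/

set_option autoImplicit false

noncomputable section

namespace Pool.Agent.H68.HN

open Classical
open Pool.Agent.H58.HN

variable {P Q : Type} [PartialOrder P] [PartialOrder Q]

private theorem bd_e (s : Ch P) : bd (e s) = ∑ x ∈ s.1, sg s x • e (er s x) := by
  unfold bd e
  rw [Finsupp.linearCombination_single, one_smul]

private theorem mem_Sp {A : Ch P → Prop} {s : Ch P} (h : A s) : e s ∈ Sp A :=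
  Finsupp.single_mem_supported ℚ 1 h

private theorem Sp_map {M : Type} [AddCommGroup M] [Module ℚ M] {A : Ch P → Prop}
    (Ψ : CG P →ₗ[ℚ] M) (N : Submodule ℚ M) (h : ∀ s, A s → Ψ (e s) ∈ N) {c : CG P}
    (hc : c ∈ Sp A) : Ψ c ∈ N := by
  have h1 : c ∈ Submodule.span ℚ ((fun i => Finsupp.single i (1 : ℚ)) '' {s | A s}) := by
    rw [← Finsupp.supported_eq_span_single]
    exact hc
  clear hc
  induction h1 using Submodule.span_induction with
  | mem x hx =>
    obtain ⟨s, hs, rfl⟩ := hx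
    exact h s hs
  | zero => rw [map_zero]; exact N.zero_mem
  | add x y _ _ hx hy => rw [map_add]; exact N.add_mem hx hy
  | smul a x _ hx => rw [map_smul]; exact N.smul_mem a hx

private theorem Sp_eq {M : Type} [AddCommGroup M] [Module ℚ M] {A : Ch P → Prop}
    (Ψ Ψ' : CG P →ₗ[ℚ] M) (h : ∀ s, A s → Ψ (e s) = Ψ' (e s)) {c : CG P}
    (hc : c ∈ Sp A) : Ψ c = Ψ' c := by
  have h1 := Sp_map (Ψ - Ψ') ⊥ (fun s hs => by
    rw [LinearMap.sub_apply, h s hs, sub_self]
    exact Submodule.zero_mem _) hc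
  rw [Submodule.mem_bot, LinearMap.sub_apply, sub_eq_zero] at h1
  exact h1

private theorem Sp_mono {A B : Ch P → Prop} (h : ∀ s, A s → B s) {c : CG P} (hc : c ∈ Sp A) :
    c ∈ Sp B := Finsupp.supported_mono (fun s hs => h s hs) hc

private theorem bd_pt (x : P) : bd (e (pt x)) = e nil := by
  rw [bd_e]
  have h1 : (pt x).1 = {x} := rfl
  rw [h1, Finset.sum_singleton]
  have h2 : sg (pt x) x = 1 := by
    unfold sg
    rw [h1, Finset.filter_singleton, if_neg (lt_irrefl x)]
    simp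
  have h3 : er (pt x) x = nil := by
    apply Subtype.ext
    change ({x} : Finset P).erase x = ∅
    rw [Finset.erase_singleton]
  rw [h2, h3, one_smul]

private theorem eq_pt {t : Ch P} (h : t.1.card = 1) : ∃ y, t = pt y := by
  obtain ⟨y, hy⟩ := Finset.card_eq_one.1 h
  exact ⟨y, Subtype.ext hy⟩

theorem pf_TF : T_TF := by
  refine ⟨?_, ?_, ?_, ?_⟩
  · intro P _
    refine ⟨fun s _ => ?_, fun s _ => rfl, fun x => bd_pt x⟩
    exact mem_Sp ⟨rfl, fun y hy => ⟨y, hy, le_rfl⟩⟩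
  · intro P Q R _ _ _ f g Φ Ψ hΦ hΨ
    refine ⟨fun s hs => ?_, fun s hs => ?_, fun x => ?_⟩
    · have h1 := hΦ.car s hs
      refine Sp_map Ψ _ (fun t ht => ?_) h1
      have h2 : t.1.Nonempty := by
        rw [← Finset.card_pos, ht.1, Finset.card_pos]
        exact hs
      refine Sp_mono (fun w hw => ?_) (hΨ.car t h2)
      refine ⟨hw.1.trans ht.1, fun z hz => ?_⟩
      obtain ⟨y, hy, hzy⟩ := hw.2 z hz
      obtain ⟨x, hx, hyx⟩ := ht.2 y hy
      exact ⟨x, hx, hzy.trans (g.monotone hyx)⟩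
    · have hs' : s.1.Nonempty := by
        rw [← Finset.card_pos]
        omega
      have h1 := hΦ.car s hs'
      have h2 : (bd ∘ₗ Ψ) (Φ (e s)) = (Ψ ∘ₗ bd) (Φ (e s)) := by
        refine Sp_eq _ _ (fun t ht => ?_) h1
        exact hΨ.com t (by rw [ht.1]; exact hs)
      have h3 := hΦ.com s hs
      change bd (Ψ (Φ (e s))) = Ψ (Φ (bd (e s)))
      rw [← h3]
      exact h2
    · have h1 := hΦ.car (pt x) ⟨x, Finset.mem_singleton_self x⟩
      have h2 : (bd ∘ₗ Ψ) (Φ (e (pt x))) =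
          ((Finsupp.lsingle (nil : Ch R) ∘ₗ Finsupp.lapply (nil : Ch Q) :
            CG Q →ₗ[ℚ] CG R) ∘ₗ bd) (Φ (e (pt x))) := by
        refine Sp_eq _ _ (fun t ht => ?_) h1
        have h3 : t.1.card = 1 := by
          rw [ht.1]
          exact Finset.card_singleton x
        obtain ⟨y, rfl⟩ := eq_pt h3
        change bd (Ψ (e (pt y))) = Finsupp.single nil ((bd (e (pt y))) nil)
        rw [hΨ.aug y, bd_pt y]
        unfold e
        rw [Finsupp.single_eq_same]
      have h4 := hΦ.aug x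
      change bd (Ψ (Φ (e (pt x)))) = Finsupp.single nil ((bd (Φ (e (pt x)))) nil) at h2
      change bd (Ψ (Φ (e (pt x)))) = e nil
      rw [h2, h4]
      unfold e
      rw [Finsupp.single_eq_same]
  · intro P Q _ _ f g Φ hfg hΦ
    refine ⟨fun s hs => ?_, hΦ.com, hΦ.aug⟩
    refine Sp_mono (fun w hw => ?_) (hΦ.car s hs)
    refine ⟨hw.1, fun z hz => ?_⟩
    obtain ⟨x, hx, hzx⟩ := hw.2 z hz
    exact ⟨x, hx, hzx.trans (hfg x)⟩
  · intro P Q _ _ f Φ hΦ n hn
    have key : ∀ m, 1 ≤ m → ∀ z ∈ G P m, Φ z ∈ G Q m := by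
      intro m hm z hz
      refine Sp_map Φ _ (fun s hs => ?_) hz
      have h2 : s.1.Nonempty := by
        rw [← Finset.card_pos, hs]
        omega
      exact Sp_mono (fun w hw => hw.1.trans hs) (hΦ.car s h2)
    refine ⟨fun z hz => ⟨key n (by omega) z hz, ?_⟩, fun z hz => key (n + 1) (by omega) z hz⟩
    have h2 : (bd ∘ₗ Φ) z = (Φ ∘ₗ bd) z := by
      refine Sp_eq _ _ (fun s hs => ?_) hz
      exact hΦ.com s (by rw [hs]; exact hn)
    exact h2

end Pool.Agent.H68.HN
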