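import Pool.Agent.H58.HN.TargetsT

/-! Row `TG` of the board hnet_modules: the homology does not vanish. -/

set_option autoImplicit false

noncomputable section

namespace Pool.Agent.H68.HN

open Classical
open Pool.Agent.H58.HN

variable {P Q : Type} [PartialOrder P] [PartialOrder Q]

private theorem bd_e' (s : Ch P) : bd (e s) = ∑ x ∈ s.1, sg s x • e (er s x) := by
  unfold bd e
  rw [Finsupp.linearCombination_single, one_smul]

private theorem hom_ext' {M : Type} [AddCommGroup M] [Module ℚ M]
    (Ψ Ψ' : CG P →ₗ[ℚ] M) (h : ∀ s, Ψ (e s) = Ψ' (e s)) : Ψ = Ψ' := by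
  refine Finsupp.lhom_ext' fun s => ?_
  ext
  exact h s

/-- the part of degree `n` -/
def prt (n : ℕ) : CG P →ₗ[ℚ] CG P :=
  Finsupp.linearCombination ℚ fun s : Ch P => if s.1.card = n then e s else 0

private theorem prt_e (n : ℕ) (s : Ch P) : prt n (e s) = if s.1.card = n then e s else 0 := by
  unfold prt e
  rw [Finsupp.linearCombination_single, one_smul]

private theorem mem_G {s : Ch P} {n : ℕ} (h : s.1.card = n) : e s ∈ G P n :=
  Finsupp.single_mem_supported ℚ 1 h

private theorem prt_mem (n : ℕ) (z : CG P) : prt n z ∈ G P n := by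
  induction z using Finsupp.induction_linear with
  | zero => rw [map_zero]; exact Submodule.zero_mem _
  | add x y hx hy => rw [map_add]; exact Submodule.add_mem _ hx hy
  | single s a =>
    have h1 : (Finsupp.single s a : CG P) = a • e s := by
      unfold e
      rw [Finsupp.smul_single, smul_eq_mul, mul_one]
    rw [h1, map_smul, prt_e]
    refine Submodule.smul_mem _ _ ?_
    split_ifs with h
    · exact mem_G h
    · exact Submodule.zero_mem _

private theorem card_er {s : Ch P} {x : P} (hx : x ∈ s.1) : (er s x).1.card + 1 = s.1.card := by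
  change (s.1.erase x).card + 1 = s.1.card
  exact Finset.card_erase_add_one hx

private theorem bd_prt (n : ℕ) (z : CG P) : bd (prt (n + 1) z) = prt n (bd z) := by
  have h : (bd ∘ₗ prt (n + 1) : CG P →ₗ[ℚ] CG P) = prt n ∘ₗ bd := by
    refine hom_ext' _ _ fun s => ?_
    rw [LinearMap.comp_apply, LinearMap.comp_apply, prt_e, bd_e', map_sum]
    split_ifs with h
    · rw [bd_e']
      refine Finset.sum_congr rfl fun x hx => ?_
      have h1 := card_er hx
      rw [map_smul, prt_e, if_pos (by omega)]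
    · rw [map_zero]
      symm
      refine Finset.sum_eq_zero fun x hx => ?_
      have h1 := card_er hx
      rw [map_smul, prt_e, if_neg (by omega), smul_zero]
  exact LinearMap.congr_fun h z

private theorem bd_prt_zero (z : CG P) : bd (prt 0 z) = 0 := by
  have h : (bd ∘ₗ prt 0 : CG P →ₗ[ℚ] CG P) = 0 := by
    refine hom_ext' _ _ fun s => ?_
    rw [LinearMap.comp_apply, prt_e, LinearMap.zero_apply]
    split_ifs with h
    · rw [bd_e', Finset.card_eq_zero.1 h, Finset.sum_empty]
    · rw [map_zero]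
  exact LinearMap.congr_fun h z

private theorem sum_prt (N : ℕ) (hN : ∀ s : Ch P, s.1.card ≤ N) (z : CG P) :
    ∑ n ∈ Finset.range (N + 1), prt n z = z := by
  have h : (∑ n ∈ Finset.range (N + 1), prt n : CG P →ₗ[ℚ] CG P) = LinearMap.id := by
    refine hom_ext' _ _ fun s => ?_
    rw [LinearMap.sum_apply, LinearMap.id_apply, Finset.sum_congr rfl fun n _ => prt_e n s,
      Finset.sum_ite_eq, if_pos (Finset.mem_range.2 (Nat.lt_succ_of_le (hN s)))]
  have h2 := LinearMap.congr_fun h z
  rw [LinearMap.sum_apply] at h2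
  exact h2

/-- the image of a chain -/
def imc (τ : P ≃o P) (s : Ch P) : Ch P :=
  ⟨s.1.map τ.toEquiv.toEmbedding, by
    rw [Finset.coe_map]
    rintro _ ⟨a, ha, rfl⟩ _ ⟨b, hb, rfl⟩ _
    exact (s.2.total ha hb).imp (fun h => τ.monotone h) fun h => τ.monotone h⟩

private theorem imc_imc (τ : P ≃o P) (h : ∀ x, τ (τ x) = x) (s : Ch P) :
    imc τ (imc τ s) = s := by
  apply Subtype.ext
  change (s.1.map τ.toEquiv.toEmbedding).map τ.toEquiv.toEmbedding = s.1
  ext x
  simp only [Finset.mem_map, Equiv.coe_toEmbedding]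
  constructor
  · rintro ⟨y, ⟨z, hz, rfl⟩, rfl⟩
    have h1 := h z
    change τ (τ z) ∈ s.1
    rw [h1]
    exact hz
  · intro hx
    exact ⟨τ x, ⟨x, hx, rfl⟩, h x⟩

private theorem imc_ne (τ : P ≃o P) (h : ∀ x, τ (τ x) = x) (h' : ∀ x, τ x ≠ x) (s : Ch P)
    (hs : s ≠ nil) : imc τ s ≠ s := by
  intro he
  have hne : s.1.Nonempty := by
    rw [Finset.nonempty_iff_ne_empty]
    intro h0
    exact hs (Subtype.ext h0)
  obtain ⟨m, hm⟩ := s.1.exists_maximal hne
  have hms : m ∈ s.1 := hm.1
  have h1 : τ m ∈ s.1 := by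
    rw [← he]
    exact Finset.mem_map.2 ⟨m, hms, rfl⟩
  have h2 : τ m ≤ m := by
    rcases s.2.total (Finset.mem_coe.2 h1) (Finset.mem_coe.2 hms) with h3 | h3
    · exact h3
    · exact hm.2 h1 h3
  have h3 : m ≤ τ m := by
    have h4 := τ.monotone h2
    rw [h m] at h4
    exact h4
  exact h' m (le_antisymm h2 h3)

theorem pf_TG (hA : T_TA) : T_TG := by
  intro P _ _ τ hτ hτ'
  by_contra hcon
  have H : ∀ (n : ℕ) (z : CG P), z ∈ G P n → bd z = 0 → ∃ y ∈ G P (n + 1), bd y = z := by
    intro n z hz h0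
    by_contra h1
    exact hcon ⟨n, z, hz, h0, h1⟩
  have : Fintype P := Fintype.ofFinite P
  have : Finite (Ch P) := Subtype.finite
  have : Fintype (Ch P) := Fintype.ofFinite _
  have hker : LinearMap.ker (bd : CG P →ₗ[ℚ] CG P) = LinearMap.range (bd : CG P →ₗ[ℚ] CG P) := by
    apply le_antisymm
    · intro z hz
      rw [LinearMap.mem_ker] at hz
      have h1 : ∀ n, prt n z ∈ LinearMap.range (bd : CG P →ₗ[ℚ] CG P) := by
        intro n
        have h2 : bd (prt n z) = 0 := by
          cases n with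
          | zero => exact bd_prt_zero z
          | succ n => rw [bd_prt, hz, map_zero]
        obtain ⟨y, _, hy⟩ := H n _ (prt_mem n z) h2
        exact ⟨y, hy⟩
      rw [← sum_prt (Fintype.card P) (fun s => Finset.card_le_univ _) z]
      exact Submodule.sum_mem _ fun n _ => h1 n
    · rintro z ⟨y, rfl⟩
      rw [LinearMap.mem_ker]
      exact hA P y
  have h1 := LinearMap.finrank_range_add_finrank_ker (bd : CG P →ₗ[ℚ] CG P)
  rw [hker, Module.finrank_finsupp_self] at h1
  have h2 : ∑ s ∈ (Finset.univ : Finset (Ch P)).erase nil, (1 : ZMod 2) = 0 := by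
    refine Finset.sum_involution (fun s _ => imc τ s) (fun s _ => ?_) (fun s hs _ => ?_)
      (fun s hs => ?_) (fun s _ => imc_imc τ hτ s)
    · decide
    · exact imc_ne τ hτ hτ' s (Finset.ne_of_mem_erase hs)
    · refine Finset.mem_erase.2 ⟨fun h3 => ?_, Finset.mem_univ _⟩
      have h4 := imc_imc τ hτ s
      rw [h3] at h4
      apply Finset.ne_of_mem_erase hs
      rw [← h4]
      apply Subtype.ext
      change (∅ : Finset P).map _ = ∅
      rw [Finset.map_empty]
  rw [Finset.sum_const, nsmul_eq_mul, mul_one, Finset.card_erase_of_mem (Finset.mem_univ _),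
    Finset.card_univ] at h2
  have h3 : 1 ≤ Fintype.card (Ch P) := Fintype.card_pos_iff.2 ⟨nil⟩
  rw [ZMod.natCast_eq_zero_iff_even] at h2
  rw [Nat.even_iff] at h2
  omega

end Pool.Agent.H68.HN
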