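import Pool.Agent.H58.HN.TargetsT

/-! Row `TOP` of the board hnet_modules: degree theories exist. -/

set_option autoImplicit false

noncomputable section

namespace Pool.Agent.H68.HN

open Classical
open Pool.Agent.H58.HN
open scoped TensorProduct

section

variable (P : Type) [PartialOrder P] (n : ℕ)

/-- cycles of degree `n` -/
def ZZ : Submodule ℚ (CG P) := G P n ⊓ LinearMap.ker bd

/-- boundaries of degree `n` -/
def BB : Submodule ℚ (ZZ P n) := ((G P (n + 1)).map bd).comap (ZZ P n).subtype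

end

variable {P : Type} [PartialOrder P] {n : ℕ}

private theorem mem_BB {z : ZZ P n} : z ∈ BB P n ↔ ∃ y ∈ G P (n + 1), bd y = z.1 := by
  unfold BB
  rw [Submodule.mem_comap, Submodule.mem_map]
  rfl

private theorem mem_ZZ {z : CG P} : z ∈ ZZ P n ↔ z ∈ G P n ∧ bd z = 0 := by
  unfold ZZ
  rw [Submodule.mem_inf, LinearMap.mem_ker]

private theorem maps (hF : T_TF) (hn : 2 ≤ n) (f : P →o P) (Φ : CG P →ₗ[ℚ] CG P)
    (h : Carries f Φ) : ∀ z ∈ ZZ P n, Φ z ∈ ZZ P n := by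
  intro z hz
  rw [mem_ZZ] at hz ⊢
  have h1 := ((hF.2.2.2 P P f Φ h n hn).1 z hz.1)
  refine ⟨h1.1, ?_⟩
  rw [h1.2, hz.2, map_zero]

private theorem mapsB (hF : T_TF) (hn : 2 ≤ n) (f : P →o P) (Φ : CG P →ₗ[ℚ] CG P)
    (h : Carries f Φ) :
    BB P n ≤ (BB P n).comap (Φ.restrict (maps hF hn f Φ h)) := by
  intro z hz
  rw [Submodule.mem_comap, mem_BB]
  obtain ⟨y, hy, hyz⟩ := mem_BB.1 hz
  refine ⟨Φ y, (hF.2.2.2 P P f Φ h n hn).2 y hy, ?_⟩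
  have h1 := ((hF.2.2.2 P P f Φ h (n + 1) (by omega)).1 y hy).2
  rw [h1, hyz]
  rfl

/-- the map in homology -/
def ind (hF : T_TF) (hn : 2 ≤ n) (f : P →o P) (Φ : CG P →ₗ[ℚ] CG P) (h : Carries f Φ) :
    Module.End ℚ (ZZ P n ⧸ BB P n) :=
  Submodule.mapQ (BB P n) (BB P n) (Φ.restrict (maps hF hn f Φ h)) (mapsB hF hn f Φ h)

private theorem ind_mk (hF : T_TF) (hn : 2 ≤ n) (f : P →o P) (Φ : CG P →ₗ[ℚ] CG P)
    (h : Carries f Φ) (z : ZZ P n) :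
    ind hF hn f Φ h (Submodule.Quotient.mk z) =
      Submodule.Quotient.mk ⟨Φ z.1, maps hF hn f Φ h z.1 z.2⟩ := rfl

private theorem ind_eq (hE : T_TE) (hF : T_TF) (hn : 2 ≤ n) (f : P →o P)
    (Φ Φ' : CG P →ₗ[ℚ] CG P) (h : Carries f Φ) (h' : Carries f Φ') :
    ind hF hn f Φ h = ind hF hn f Φ' h' := by
  refine LinearMap.ext fun m => ?_
  obtain ⟨z, rfl⟩ := Submodule.Quotient.mk_surjective _ m
  rw [ind_mk, ind_mk, Submodule.Quotient.eq, mem_BB]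
  have hz := mem_ZZ.1 z.2
  obtain ⟨y, hy, hyz⟩ := hE P P f Φ Φ' h h' n (by omega) z.1 hz.1 hz.2
  exact ⟨y, hy, hyz⟩

theorem pf_TOP (hA : T_TA) (hD : T_TD) (hE : T_TE) (hF : T_TF) (hG : T_TG) (hH : T_TH)
    (hK : T_TK2) (hL : T_TL) (hO : T_TO) : T_TOP := by
  intro P _ _ _ hconn τ h1 h2
  have hex := hG P τ h1 h2
  obtain ⟨n, hn, hVan, z0, hz0, hz0', hz0''⟩ : ∃ n : ℕ, 2 ≤ n ∧ Van P n ∧ ∃ z : CG P,
      z ∈ G P n ∧ bd z = 0 ∧ ¬ ∃ y ∈ G P (n + 1), bd y = z := by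
    obtain ⟨z, hz, hz', hz''⟩ := Nat.find_spec hex
    refine ⟨Nat.find hex, ?_, ?_, z, hz, hz', hz''⟩
    · by_contra hc
      exact hz'' (hH P hconn (Nat.find hex) (by omega) z hz hz')
    · intro m hm w hw hw'
      by_contra hc
      exact Nat.find_min hex hm ⟨w, hw, hw', hc⟩
  choose Φ hΦ using hD P P
  have hnt : Nontrivial (ZZ P n ⧸ BB P n) := by
    refine Submodule.Quotient.nontrivial_iff.2 fun htop => hz0'' ?_
    have h3 : (⟨z0, mem_ZZ.2 ⟨hz0, hz0'⟩⟩ : ZZ P n) ∈ BB P n := by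
      rw [htop]
      exact Submodule.mem_top
    exact mem_BB.1 h3
  refine ⟨Module.End ℚ (ZZ P n ⧸ BB P n), inferInstance, inferInstance, inferInstance,
    ⟨⟨fun f => ind hF hn f (Φ f) (hΦ f), ?_, ?_, ?_, ?_⟩⟩⟩
  · rw [ind_eq hE hF hn OrderHom.id (Φ OrderHom.id) LinearMap.id (hΦ _) (hF.1 P)]
    refine LinearMap.ext fun m => ?_
    obtain ⟨z, rfl⟩ := Submodule.Quotient.mk_surjective _ m
    rw [ind_mk]
    rfl
  · intro f g
    rw [ind_eq hE hF hn (f.comp g) (Φ (f.comp g)) (Φ f ∘ₗ Φ g) (hΦ _)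
      (hF.2.1 P P P g f (Φ g) (Φ f) (hΦ g) (hΦ f))]
    refine LinearMap.ext fun m => ?_
    obtain ⟨z, rfl⟩ := Submodule.Quotient.mk_surjective _ m
    rw [ind_mk, Module.End.mul_apply, ind_mk, ind_mk]
    rfl
  · intro f g hfg
    have h3 := hF.2.2.1 P P f g (Φ f) hfg (hΦ f)
    have h4 : ind hF hn f (Φ f) (hΦ f) = ind hF hn g (Φ f) h3 := by
      refine LinearMap.ext fun m => ?_
      obtain ⟨z, rfl⟩ := Submodule.Quotient.mk_surjective _ m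
      rw [ind_mk, ind_mk]
    rw [h4]
    exact ind_eq hE hF hn g _ _ _ _
  · intro F u v
    obtain ⟨μ, hμ⟩ := hK P P F
    obtain ⟨l1, l2, l3⟩ := hL P P F μ hμ
    rw [ind_eq hE hF hn _ _ (μ ∘ₗ AW) (hΦ _) l1,
      ind_eq hE hF hn _ _ (μ ∘ₗ (TensorProduct.mk ℚ (CG P) (CG P)).flip (e (pt v))) (hΦ _) (l2 v),
      ind_eq hE hF hn _ _ (μ ∘ₗ TensorProduct.mk ℚ (CG P) (CG P) (e (pt u))) (hΦ _) (l3 u)]
    refine LinearMap.ext fun m => ?_
    obtain ⟨z, rfl⟩ := Submodule.Quotient.mk_surjective _ m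
    rw [LinearMap.add_apply, ind_mk, ind_mk, ind_mk, ← Submodule.Quotient.mk_add,
      Submodule.Quotient.eq, mem_BB]
    have hz := mem_ZZ.1 z.2
    obtain ⟨y, hy, hyz⟩ := hO P P F μ n hn hμ hVan z.1 hz.1 hz.2 u v
    refine ⟨y, hy, ?_⟩
    rw [hyz, sub_sub]
    rfl

end Pool.Agent.H68.HN
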